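import Pool.Agent.Helper15.KP.Defs

/-!
# KP-7: continuity of `I` and invariance under congruence
-/

set_option autoImplicit false

open MeasureTheory Set Filter Topology

noncomputable section

namespace Pool.Agent.Helper75.KP

open Pool.Agent.Helper15.KP

lemma continuous_F {m : ℕ} (c : Fin m → ℝ) (R : ℝ) : Continuous (F c R) := by
  unfold F
  fun_prop

lemma continuous_mn {n : ℕ} {X : Type*} [TopologicalSpace X] {g : X → Fin (n + 1) → ℝ}
    (hg : ∀ k, Continuous fun x => g x k) : Continuous fun x => mn (g x) := by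
  unfold mn
  exact Continuous.finset_inf'_apply (f := fun k x => g x k) Finset.univ_nonempty
    (fun k _ => hg k)

theorem continuous_I {m n : ℕ} (Φ : ℝ → ℝ) (hΦ : Continuous Φ) (hs : HasCompactSupport Φ)
    (R : Fin (n + 1) → ℝ) : Continuous (fun x : Fin (n + 1) → Fin m → ℝ => I Φ R x) := by
  obtain ⟨B, hB⟩ : ∃ B : ℝ, ∀ s, Φ s ≠ 0 → s ≤ B := by
    obtain ⟨B, hB⟩ := hs.isCompact.bddAbove
    exact ⟨B, fun s h => hB (subset_tsupport _ h)⟩
  obtain ⟨C, hC⟩ : ∃ C : ℝ, ∀ s, ‖Φ s‖ ≤ C := hs.exists_bound_of_continuous hΦ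
  have hC0 : 0 ≤ C := (norm_nonneg _).trans (hC 0)
  rw [continuous_iff_continuousAt]
  intro x₀
  -- a radius
  set Q : ℝ := |B| + ∑ k, |R k| with hQ
  have hQ0 : 0 ≤ Q := by positivity
  set ρ : ℝ := Real.sqrt Q + ‖x₀‖ + 1 with hρ
  unfold I
  refine continuousAt_of_dominated
    (bound := (Metric.closedBall (0 : (Fin m → ℝ) × ℝ) ρ).indicator fun _ => C) ?_ ?_ ?_ ?_
  · refine Eventually.of_forall fun x => ?_
    exact (hΦ.comp (continuous_mn fun k => continuous_F (x k) (R k))).aestronglyMeasurable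
  · filter_upwards [Metric.closedBall_mem_nhds x₀ one_pos] with x hx
    refine Eventually.of_forall fun w => ?_
    by_cases hw : w ∈ Metric.closedBall (0 : (Fin m → ℝ) × ℝ) ρ
    · rw [indicator_of_mem hw]
      exact hC _
    · rw [indicator_of_notMem hw]
      have hz : Φ (mn fun k => F (x k) (R k) w) = 0 := by
        by_contra hne
        have h1 := hB _ hne
        obtain ⟨k, -, hk⟩ := Finset.exists_mem_eq_inf' (Finset.univ_nonempty (α := Fin (n + 1)))
          (fun k => F (x k) (R k) w)
        have h2 : F (x k) (R k) w ≤ B := by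
          rw [← hk]; exact h1
        apply hw
        have h3 : ∑ l, (w.1 l - x k l) ^ 2 + w.2 ^ 2 ≤ Q := by
          have h4 : R k ≤ ∑ k, |R k| :=
            (le_abs_self _).trans (Finset.single_le_sum (f := fun k => |R k|)
              (fun _ _ => abs_nonneg _) (Finset.mem_univ k))
          have h5 := le_abs_self B
          unfold F at h2
          rw [hQ]
          linarith
        have hxk : ∀ l, |x k l| ≤ ‖x₀‖ + 1 := by
          intro l
          have e1 : ‖x‖ ≤ ‖x₀‖ + 1 := by
            have := norm_le_norm_add_norm_sub' x x₀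
            rw [Metric.mem_closedBall, dist_eq_norm] at hx
            linarith
          have e2 : |x k l| ≤ ‖x‖ := (norm_le_pi_norm (x k) l).trans (norm_le_pi_norm x k)
          linarith
        have hsum : ∀ l, (w.1 l - x k l) ^ 2 ≤ Q := by
          intro l
          have e1 := Finset.single_le_sum (f := fun l => (w.1 l - x k l) ^ 2)
            (fun _ _ => sq_nonneg _) (Finset.mem_univ l)
          have e2 := sq_nonneg w.2
          linarith
        rw [mem_closedBall_zero_iff, Prod.norm_def, max_le_iff]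
        constructor
        · rw [pi_norm_le_iff_of_nonneg (by positivity)]
          intro l
          have e1 : |w.1 l - x k l| ≤ Real.sqrt Q := Real.abs_le_sqrt (hsum l)
          have e2 : |w.1 l| ≤ |w.1 l - x k l| + |x k l| := by
            have := abs_add_le (w.1 l - x k l) (x k l)
            rwa [sub_add_cancel] at this
          rw [Real.norm_eq_abs]
          have := hxk l
          linarith
        · have e1 : w.2 ^ 2 ≤ Q := by
            have : 0 ≤ ∑ l, (w.1 l - x k l) ^ 2 := Finset.sum_nonneg fun _ _ => sq_nonneg _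
            linarith
          have e2 : |w.2| ≤ Real.sqrt Q := Real.abs_le_sqrt e1
          rw [Real.norm_eq_abs]
          have := norm_nonneg x₀
          linarith
      rw [hz, norm_zero]
  · refine (integrable_indicator_iff measurableSet_closedBall).2 ?_
    exact (continuous_const.continuousOn).integrableOn_compact (isCompact_closedBall _ _)
  · refine Eventually.of_forall fun w => ?_
    have h1 : ∀ k : Fin (n + 1), Continuous fun x : Fin (n + 1) → Fin m → ℝ =>
        F (x k) (R k) w := by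
      intro k
      unfold F
      fun_prop
    have h2 : Continuous fun x : Fin (n + 1) → Fin m → ℝ => mn fun k => F (x k) (R k) w :=
      continuous_mn h1
    have h3 : Continuous fun x : Fin (n + 1) → Fin m → ℝ => Φ (mn fun k => F (x k) (R k) w) :=
      hΦ.comp h2
    exact h3.continuousAt

/-! ### congruence -/

/-- two families of vectors with equal Gram matrices are related by a linear isometry -/
lemma exists_isometry {n m : ℕ} (u u' : Fin (n + 1) → EuclideanSpace ℝ (Fin m))
    (h : ∀ c : Fin (n + 1) → ℝ, ‖∑ i, c i • u i‖ = ‖∑ i, c i • u' i‖) :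
    ∃ φ : EuclideanSpace ℝ (Fin m) ≃ₗᵢ[ℝ] EuclideanSpace ℝ (Fin m), ∀ i, φ (u i) = u' i := by
  let L : (Fin (n + 1) → ℝ) →ₗ[ℝ] EuclideanSpace ℝ (Fin m) := Fintype.linearCombination ℝ u
  let L' : (Fin (n + 1) → ℝ) →ₗ[ℝ] EuclideanSpace ℝ (Fin m) := Fintype.linearCombination ℝ u'
  have hL : ∀ c, L c = ∑ i, c i • u i := fun c => Fintype.linearCombination_apply _ _ _
  have hL' : ∀ c, L' c = ∑ i, c i • u' i := fun c => Fintype.linearCombination_apply _ _ _
  have hn : ∀ c, ‖L c‖ = ‖L' c‖ := fun c => by rw [hL, hL', h]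
  obtain ⟨g, hg⟩ := L.rangeRestrict.exists_rightInverse_of_surjective
    (LinearMap.range_rangeRestrict L)
  have hg' : ∀ s : LinearMap.range L, L (g s) = s := by
    intro s
    have := congrArg (fun T => ((T s : LinearMap.range L) : EuclideanSpace ℝ (Fin m))) hg
    simpa using this
  let T : LinearMap.range L →ₗᵢ[ℝ] EuclideanSpace ℝ (Fin m) :=
    { toLinearMap := L'.comp g
      norm_map' := by
        intro s
        change ‖L' (g s)‖ = ‖s‖
        rw [← hn, hg']
        rfl }
  have hT : ∀ c, T ⟨L c, LinearMap.mem_range_self L c⟩ = L' c := by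
    intro c
    change L' (g ⟨L c, _⟩) = L' c
    have h1 : L (g ⟨L c, LinearMap.mem_range_self L c⟩ - c) = 0 := by
      rw [map_sub, hg', sub_self]
    have h2 : ‖L' (g ⟨L c, LinearMap.mem_range_self L c⟩ - c)‖ = 0 := by
      rw [← hn, h1, norm_zero]
    have h3 := norm_eq_zero.1 h2
    rw [map_sub] at h3
    exact sub_eq_zero.1 h3
  let φ := T.extend.toLinearIsometryEquiv rfl
  refine ⟨φ, fun i => ?_⟩
  have h1 : L (Pi.single i 1) = u i := by
    rw [hL]
    simp [Pi.single_apply]
  have h2 : L' (Pi.single i 1) = u' i := by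
    rw [hL']
    simp [Pi.single_apply]
  have h3 := T.extend_apply ⟨L (Pi.single i 1), LinearMap.mem_range_self L _⟩
  rw [hT, h2] at h3
  change T.extend (u i) = u' i
  rw [← h3, ← h1]

lemma norm_sq_toLp {m : ℕ} (a b : Fin m → ℝ) :
    ‖(WithLp.toLp 2 a : EuclideanSpace ℝ (Fin m)) - WithLp.toLp 2 b‖ ^ 2 = sq a b := by
  rw [EuclideanSpace.norm_eq, Real.sq_sqrt (Finset.sum_nonneg fun _ _ => sq_nonneg _)]
  unfold Pool.Agent.Helper15.KP.sq
  refine Finset.sum_congr rfl fun l _ => ?_
  rw [Real.norm_eq_abs, sq_abs]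
  rfl

theorem I_congr {m n : ℕ} (Φ : ℝ → ℝ) (R : Fin (n + 1) → ℝ) (x x' : Fin (n + 1) → Fin m → ℝ)
    (h : ∀ i j, sq (x i) (x j) = sq (x' i) (x' j)) : I Φ R x = I Φ R x' := by
  let X : Fin (n + 1) → EuclideanSpace ℝ (Fin m) := fun i => WithLp.toLp 2 (x i)
  let X' : Fin (n + 1) → EuclideanSpace ℝ (Fin m) := fun i => WithLp.toLp 2 (x' i)
  have hX : ∀ i j, ‖X i - X j‖ ^ 2 = ‖X' i - X' j‖ ^ 2 := by
    intro i j
    rw [norm_sq_toLp, norm_sq_toLp, h]
  have hin : ∀ i j, inner ℝ (X i - X 0) (X j - X 0) = inner ℝ (X' i - X' 0) (X' j - X' 0) := by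
    intro i j
    have e : ∀ a b : EuclideanSpace ℝ (Fin m),
        inner ℝ a b = (‖a‖ ^ 2 + ‖b‖ ^ 2 - ‖a - b‖ ^ 2) / 2 := by
      intro a b
      rw [@norm_sub_sq_real]
      ring
    rw [e, e, sub_sub_sub_cancel_right, sub_sub_sub_cancel_right, hX, hX, hX]
  obtain ⟨φ, hφ⟩ := exists_isometry (fun i => X i - X 0) (fun i => X' i - X' 0) (by
    intro c
    have e : ∀ u : Fin (n + 1) → EuclideanSpace ℝ (Fin m), ‖∑ i, c i • u i‖ ^ 2 =
        ∑ i, ∑ j, c i * (c j * inner ℝ (u i) (u j)) := by
      intro u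
      rw [← real_inner_self_eq_norm_sq, sum_inner]
      refine Finset.sum_congr rfl fun i _ => ?_
      rw [inner_sum]
      refine Finset.sum_congr rfl fun j _ => ?_
      rw [real_inner_smul_left, real_inner_smul_right]
    have h1 : ‖∑ i, c i • (X i - X 0)‖ ^ 2 = ‖∑ i, c i • (X' i - X' 0)‖ ^ 2 := by
      rw [e, e]
      simp only [hin]
    exact (pow_left_inj₀ (norm_nonneg _) (norm_nonneg _) two_ne_zero).1 h1)
  -- the measurable equivalence
  let e0 : (Fin m → ℝ) ≃ᵐ EuclideanSpace ℝ (Fin m) := MeasurableEquiv.toLp 2 (Fin m → ℝ)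
  have he0 : MeasurePreserving e0 := PiLp.volume_preserving_toLp (Fin m)
  let e1 : (Fin m → ℝ) ≃ᵐ (Fin m → ℝ) :=
    (((e0.trans (MeasurableEquiv.addRight (-X 0))).trans φ.toHomeomorph.toMeasurableEquiv).trans
      (MeasurableEquiv.addRight (X' 0))).trans e0.symm
  have he1 : MeasurePreserving e1 := by
    have a1 : MeasurePreserving (MeasurableEquiv.addRight (-X 0)) volume volume :=
      measurePreserving_add_right _ _
    have a2 : MeasurePreserving φ.toHomeomorph.toMeasurableEquiv volume volume :=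
      φ.measurePreserving
    have a3 : MeasurePreserving (MeasurableEquiv.addRight (X' 0)) volume volume :=
      measurePreserving_add_right _ _
    have a4 : MeasurePreserving e0.symm volume volume := he0.symm
    exact (((he0.trans a1).trans a2).trans a3).trans a4
  have he1v : ∀ w, (WithLp.toLp 2 (e1 w) : EuclideanSpace ℝ (Fin m)) =
      φ (WithLp.toLp 2 w - X 0) + X' 0 := by
    intro w
    rw [sub_eq_add_neg]
    rfl
  let e2 : ((Fin m → ℝ) × ℝ) ≃ᵐ ((Fin m → ℝ) × ℝ) := e1.prodCongr (MeasurableEquiv.refl ℝ)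
  have he2 : MeasurePreserving e2 := he1.prod (MeasurePreserving.id _)
  have hF : ∀ k w, F (x' k) (R k) (e2 w) = F (x k) (R k) w := by
    intro k w
    have h1 : sq (e1 w.1) (x' k) = sq w.1 (x k) := by
      rw [← norm_sq_toLp, ← norm_sq_toLp, he1v]
      have h2 : φ (WithLp.toLp 2 w.1 - X 0) + X' 0 - WithLp.toLp 2 (x' k) =
          φ (WithLp.toLp 2 w.1 - X 0) - (X' k - X' 0) := by
        change φ (WithLp.toLp 2 w.1 - X 0) + X' 0 - X' k = _
        abel
      rw [h2, ← hφ k, ← map_sub, LinearIsometryEquiv.norm_map]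
      congr 2
      change WithLp.toLp 2 w.1 - X 0 - (X k - X 0) = WithLp.toLp 2 w.1 - X k
      abel
    unfold F
    change sq (e1 w.1) (x' k) + w.2 ^ 2 - R k = sq w.1 (x k) + w.2 ^ 2 - R k
    rw [h1]
  unfold I
  rw [← he2.integral_comp' (g := fun w => Φ (mn fun k => F (x' k) (R k) w))]
  simp only [hF]

end Pool.Agent.Helper75.KP
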